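import Mathlib

set_option autoImplicit false

namespace H484SG

/-- Integer coordinates of an element of the ring of integers of the twelfth cyclotomic field. -/
structure Z4 where
  a : ℤ
  b : ℤ
  c : ℤ
  d : ℤ
deriving DecidableEq

namespace Z4

def add (x y : Z4) : Z4 := ⟨x.a + y.a, x.b + y.b, x.c + y.c, x.d + y.d⟩
def sub (x y : Z4) : Z4 := ⟨x.a - y.a, x.b - y.b, x.c - y.c, x.d - y.d⟩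
def mul (x y : Z4) : Z4 :=
  ⟨x.a * y.a - (x.b * y.d + x.c * y.c + x.d * y.b) - x.d * y.d,
   x.a * y.b + x.b * y.a - (x.c * y.d + x.d * y.c),
   x.a * y.c + x.b * y.b + x.c * y.a + (x.b * y.d + x.c * y.c + x.d * y.b),
   x.a * y.d + x.b * y.c + x.c * y.b + x.d * y.a + (x.c * y.d + x.d * y.c)⟩
def zero : Z4 := ⟨0, 0, 0, 0⟩
/-- conjugation sending the root to its seventh power -/
def s7 (x : Z4) : Z4 := ⟨x.a, -x.b, x.c, -x.d⟩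
/-- conjugation sending the root to its fifth power -/
def s5 (x : Z4) : Z4 := ⟨x.a + x.c, -x.b, -x.c, x.b + x.d⟩
def adj (x : Z4) : Z4 := mul (s7 x) (s5 (mul x (s7 x)))
/-- certificate of non-vanishing -/
def nz (x : Z4) : Bool :=
  decide ((mul x (adj x)).a ≠ 0 ∧ (mul x (adj x)).b = 0 ∧ (mul x (adj x)).c = 0 ∧ (mul x (adj x)).d = 0)

def ev {R : Type*} [CommRing R] (ζ : R) (x : Z4) : R :=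
  (x.a : R) + (x.b : R) * ζ + (x.c : R) * ζ ^ 2 + (x.d : R) * ζ ^ 3

variable {R : Type*} [CommRing R] {ζ : R}

theorem ev_add (x y : Z4) : ev ζ (add x y) = ev ζ x + ev ζ y := by
  simp only [ev, add]; push_cast; ring

theorem ev_sub (x y : Z4) : ev ζ (sub x y) = ev ζ x - ev ζ y := by
  simp only [ev, sub]; push_cast; ring

theorem ev_zero : ev ζ zero = 0 := by simp [ev, zero]

theorem ev_mul (h : ζ ^ 4 - ζ ^ 2 + 1 = 0) (x y : Z4) : ev ζ (mul x y) = ev ζ x * ev ζ y := by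
  simp only [ev, mul]; push_cast
  linear_combination (-(((x.b : R) * y.d + x.c * y.c + x.d * y.b) + ((x.c : R) * y.d + x.d * y.c) * ζ
    + (x.d : R) * y.d * (ζ ^ 2 + 1))) * h

theorem map_ev {S : Type*} [CommRing S] (f : R →+* S) (x : Z4) : f (ev ζ x) = ev (f ζ) x := by
  simp [ev]

theorem ev_ne_zero [CharZero R] (h : ζ ^ 4 - ζ ^ 2 + 1 = 0) {x : Z4} (hx : nz x = true) :
    ev ζ x ≠ 0 := by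
  intro h0
  have h1 := ev_mul h x (adj x)
  simp only [nz, decide_eq_true_eq] at hx
  obtain ⟨ha, hb, hc, hd⟩ := hx
  rw [h0, zero_mul, ev, hb, hc, hd] at h1
  simp at h1
  exact ha h1

end Z4

open Z4

/-- The coefficient vectors of the 22 lines. -/
def VL : List (Z4 × Z4 × Z4) := [
  (⟨1, 0, 0, 0⟩, ⟨0, 0, 0, 0⟩, ⟨0, 0, 0, 0⟩),
  (⟨0, 0, 0, 0⟩, ⟨1, 0, 0, 0⟩, ⟨0, 0, 0, 0⟩),
  (⟨0, 0, 0, 0⟩, ⟨0, 0, 0, 0⟩, ⟨1, 0, 0, 0⟩),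
  (⟨1, 0, 0, 1⟩, ⟨0, 0, 0, 2⟩, ⟨0, 0, 2, 0⟩),
  (⟨0, 1, 0, 0⟩, ⟨-1, 1, 0, 0⟩, ⟨0, 0, 1, 0⟩),
  (⟨0, 0, 0, 1⟩, ⟨-1, 1, 0, 0⟩, ⟨0, 0, 1, 0⟩),
  (⟨1, 0, 0, 0⟩, ⟨1, 0, 0, 0⟩, ⟨1, 0, 0, 0⟩),
  (⟨1, 0, 0, 0⟩, ⟨0, 0, 1, 0⟩, ⟨0, 0, 1, 0⟩),
  (⟨1, 0, 0, 0⟩, ⟨0, 1, 0, 0⟩, ⟨0, 0, 1, -1⟩),
  (⟨0, 0, 0, 1⟩, ⟨-1, 0, 0, 0⟩, ⟨0, -1, 1, 0⟩),
  (⟨0, 0, 0, 0⟩, ⟨0, 0, 1, 0⟩, ⟨1, 0, 0, 1⟩),
  (⟨0, 0, 0, 0⟩, ⟨0, 0, 1, 0⟩, ⟨1, 0, 0, 0⟩),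
  (⟨0, 0, 0, 0⟩, ⟨1, 0, 0, 0⟩, ⟨0, 1, 0, 0⟩),
  (⟨0, 0, 0, 0⟩, ⟨1, 0, 0, 1⟩, ⟨0, 1, 0, 0⟩),
  (⟨0, 1, 0, 0⟩, ⟨0, 1, 0, 0⟩, ⟨1, 0, 0, 0⟩),
  (⟨1, 0, 0, 0⟩, ⟨0, 0, 0, 1⟩, ⟨0, 0, 1, 0⟩),
  (⟨1, 1, 0, 0⟩, ⟨0, 0, 0, 1⟩, ⟨0, 0, 0, 0⟩),
  (⟨1, 1, 0, 0⟩, ⟨0, 0, 0, 0⟩, ⟨1, 0, 0, 0⟩),
  (⟨0, 1, 0, 0⟩, ⟨0, 0, 1, 0⟩, ⟨1, 0, 0, 1⟩),
  (⟨1, 0, 0, 0⟩, ⟨0, 0, 1, 0⟩, ⟨1, 0, 0, 0⟩),
  (⟨1, 1, 0, 0⟩, ⟨0, 1, 0, 0⟩, ⟨0, 0, 1, 0⟩),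
  (⟨1, 0, 0, 0⟩, ⟨1, 0, 0, 1⟩, ⟨0, 1, 0, 0⟩)]

def V0 (j : Fin 22) : Z4 := (VL.getD j (zero, zero, zero)).1
def V1 (j : Fin 22) : Z4 := (VL.getD j (zero, zero, zero)).2.1
def V2 (j : Fin 22) : Z4 := (VL.getD j (zero, zero, zero)).2.2

def TL : List (List (Fin 22)) := [
  [0, 16, 17, 14, 5, 4, 7, 6, 9, 8, 18, 19, 20, 21, 3, 3, 1, 2, 10, 11, 12, 13],
  [16, 0, 10, 18, 21, 14, 19, 15, 17, 20, 2, 2, 2, 2, 5, 7, 0, 8, 3, 6, 9, 4],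
  [17, 10, 0, 21, 16, 20, 14, 19, 18, 15, 1, 1, 1, 1, 6, 9, 4, 0, 8, 7, 5, 3],
  [14, 18, 21, 0, 6, 9, 4, 8, 7, 5, 16, 20, 19, 17, 0, 0, 10, 13, 1, 12, 11, 2],
  [5, 21, 16, 6, 0, 0, 3, 9, 19, 7, 17, 14, 15, 18, 11, 12, 2, 10, 13, 8, 8, 1],
  [4, 14, 20, 9, 0, 0, 8, 16, 6, 3, 15, 17, 21, 19, 1, 10, 7, 11, 7, 13, 2, 12],
  [7, 19, 14, 4, 3, 8, 0, 0, 5, 17, 20, 18, 16, 15, 2, 13, 12, 9, 11, 1, 10, 9],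
  [6, 15, 19, 8, 9, 16, 0, 0, 3, 4, 14, 21, 17, 20, 10, 1, 5, 12, 5, 2, 13, 11],
  [9, 17, 18, 7, 19, 6, 5, 3, 0, 0, 21, 15, 14, 16, 12, 11, 13, 1, 2, 4, 4, 10],
  [8, 20, 15, 5, 7, 3, 17, 4, 0, 0, 19, 16, 18, 14, 13, 2, 11, 6, 12, 10, 1, 6],
  [18, 2, 1, 16, 17, 15, 20, 14, 21, 19, 0, 1, 1, 1, 7, 5, 3, 4, 0, 9, 6, 8],
  [19, 2, 1, 20, 14, 17, 18, 21, 15, 16, 1, 0, 1, 1, 4, 8, 9, 5, 6, 0, 3, 7],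
  [20, 2, 1, 19, 15, 21, 16, 17, 14, 18, 1, 1, 0, 1, 8, 4, 6, 7, 9, 3, 0, 5],
  [21, 2, 1, 17, 18, 19, 15, 20, 16, 14, 1, 1, 1, 0, 9, 6, 8, 3, 4, 5, 7, 0],
  [3, 5, 6, 0, 11, 1, 2, 10, 12, 13, 7, 4, 8, 9, 0, 0, 21, 19, 20, 17, 18, 16],
  [3, 7, 9, 0, 12, 10, 13, 1, 11, 2, 5, 8, 4, 6, 0, 0, 19, 18, 17, 16, 21, 20],
  [1, 0, 4, 10, 2, 7, 12, 5, 13, 11, 3, 9, 6, 8, 21, 19, 0, 20, 5, 15, 17, 14],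
  [2, 8, 0, 13, 10, 11, 9, 12, 1, 6, 4, 5, 7, 3, 19, 18, 20, 0, 15, 14, 16, 6],
  [10, 3, 8, 1, 13, 7, 11, 5, 2, 12, 0, 6, 9, 4, 20, 17, 5, 15, 0, 21, 14, 19],
  [11, 6, 7, 12, 8, 13, 1, 2, 4, 10, 9, 0, 3, 5, 17, 16, 15, 14, 21, 0, 4, 18],
  [12, 9, 5, 11, 8, 2, 10, 13, 4, 1, 6, 3, 0, 7, 18, 21, 17, 16, 14, 4, 0, 15],
  [13, 4, 3, 2, 1, 12, 9, 11, 10, 6, 8, 7, 5, 0, 16, 20, 14, 6, 19, 18, 15, 0]]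

def third (i j : Fin 22) : Fin 22 := (TL.getD i []).getD j 0

def cr0 (i j : Fin 22) : Z4 := sub (mul (V1 i) (V2 j)) (mul (V2 i) (V1 j))
def cr1 (i j : Fin 22) : Z4 := sub (mul (V2 i) (V0 j)) (mul (V0 i) (V2 j))
def cr2 (i j : Fin 22) : Z4 := sub (mul (V0 i) (V1 j)) (mul (V1 i) (V0 j))
def dt (i j k : Fin 22) : Z4 :=
  add (add (mul (cr0 i j) (V0 k)) (mul (cr1 i j) (V1 k))) (mul (cr2 i j) (V2 k))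

theorem third_spec : ∀ i j : Fin 22, i ≠ j →
    third i j ≠ i ∧ third i j ≠ j ∧ dt i j (third i j) = zero := by decide +kernel

theorem cr_nz : ∀ i j : Fin 22, i ≠ j →
    nz (cr0 i j) = true ∨ nz (cr1 i j) = true ∨ nz (cr2 i j) = true := by decide +kernel

theorem V_nz : ∀ i : Fin 22, nz (V0 i) = true ∨ nz (V1 i) = true ∨ nz (V2 i) = true := by
  decide +kernel

/-- The coefficient vector of line `j` in a ring with a chosen root. -/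
def hv {R : Type*} [CommRing R] (ζ : R) (j : Fin 22) : Fin 3 → R :=
  ![ev ζ (V0 j), ev ζ (V1 j), ev ζ (V2 j)]

section
variable {R : Type*} [CommRing R] {ζ : R}

@[simp] theorem hv0 (j : Fin 22) : hv ζ j 0 = ev ζ (V0 j) := rfl
@[simp] theorem hv1 (j : Fin 22) : hv ζ j 1 = ev ζ (V1 j) := rfl
@[simp] theorem hv2 (j : Fin 22) : hv ζ j 2 = ev ζ (V2 j) := rfl

theorem ev_cr0 (h : ζ ^ 4 - ζ ^ 2 + 1 = 0) (i j : Fin 22) :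
    ev ζ (cr0 i j) = hv ζ i 1 * hv ζ j 2 - hv ζ i 2 * hv ζ j 1 := by
  simp [cr0, ev_sub, ev_mul h]
theorem ev_cr1 (h : ζ ^ 4 - ζ ^ 2 + 1 = 0) (i j : Fin 22) :
    ev ζ (cr1 i j) = hv ζ i 2 * hv ζ j 0 - hv ζ i 0 * hv ζ j 2 := by
  simp [cr1, ev_sub, ev_mul h]
theorem ev_cr2 (h : ζ ^ 4 - ζ ^ 2 + 1 = 0) (i j : Fin 22) :
    ev ζ (cr2 i j) = hv ζ i 0 * hv ζ j 1 - hv ζ i 1 * hv ζ j 0 := by
  simp [cr2, ev_sub, ev_mul h]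
theorem ev_dt (h : ζ ^ 4 - ζ ^ 2 + 1 = 0) (i j k : Fin 22) :
    ev ζ (dt i j k) = (hv ζ i 1 * hv ζ j 2 - hv ζ i 2 * hv ζ j 1) * hv ζ k 0
      + (hv ζ i 2 * hv ζ j 0 - hv ζ i 0 * hv ζ j 2) * hv ζ k 1
      + (hv ζ i 0 * hv ζ j 1 - hv ζ i 1 * hv ζ j 0) * hv ζ k 2 := by
  rw [dt, ev_add, ev_add, ev_mul h, ev_mul h, ev_mul h, ev_cr0 h, ev_cr1 h, ev_cr2 h]; rfl
end

section
variable {K : Type*} [Field K] [CharZero K] {ζ : K}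

theorem hv_ne (h : ζ ^ 4 - ζ ^ 2 + 1 = 0) (j : Fin 22) : hv ζ j ≠ 0 := by
  intro h0
  rcases V_nz j with h1 | h1 | h1
  · exact ev_ne_zero h h1 (congrFun h0 0)
  · exact ev_ne_zero h h1 (congrFun h0 1)
  · exact ev_ne_zero h h1 (congrFun h0 2)

/-- Two different lines are not proportional. -/
theorem cross_ne (h : ζ ^ 4 - ζ ^ 2 + 1 = 0) {i j : Fin 22} (hij : i ≠ j) :
    ¬ (hv ζ i 1 * hv ζ j 2 - hv ζ i 2 * hv ζ j 1 = 0 ∧ hv ζ i 2 * hv ζ j 0 - hv ζ i 0 * hv ζ j 2 = 0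
      ∧ hv ζ i 0 * hv ζ j 1 - hv ζ i 1 * hv ζ j 0 = 0) := by
  rintro ⟨h0, h1, h2⟩
  rcases cr_nz i j hij with h3 | h3 | h3
  · exact ev_ne_zero h h3 (by rw [ev_cr0 h, h0])
  · exact ev_ne_zero h h3 (by rw [ev_cr1 h, h1])
  · exact ev_ne_zero h h3 (by rw [ev_cr2 h, h2])

/-- A point on two different lines lies on the third line of the table. -/
theorem on_third (h : ζ ^ 4 - ζ ^ 2 + 1 = 0) {i j : Fin 22} (hij : i ≠ j) (p : Fin 3 → K)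
    (hi : hv ζ i 0 * p 0 + hv ζ i 1 * p 1 + hv ζ i 2 * p 2 = 0)
    (hj : hv ζ j 0 * p 0 + hv ζ j 1 * p 1 + hv ζ j 2 * p 2 = 0) :
    hv ζ (third i j) 0 * p 0 + hv ζ (third i j) 1 * p 1 + hv ζ (third i j) 2 * p 2 = 0 := by
  have hd := ev_dt h i j (third i j)
  rw [(third_spec i j hij).2.2, ev_zero] at hd
  have hc := cross_ne h hij
  generalize hv ζ (third i j) = w at *
  generalize hv ζ i = u at *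
  generalize hv ζ j = v at *
  by_contra hne
  apply hc
  refine ⟨?_, ?_, ?_⟩
  · apply (mul_eq_zero_iff_right hne).1
    linear_combination (-p 0) * hd + (w 1 * v 2 - w 2 * v 1) * hi - (w 1 * u 2 - w 2 * u 1) * hj
  · apply (mul_eq_zero_iff_right hne).1
    linear_combination (-p 1) * hd + (w 2 * v 0 - w 0 * v 2) * hi - (w 2 * u 0 - w 0 * u 2) * hj
  · apply (mul_eq_zero_iff_right hne).1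
    linear_combination (-p 2) * hd + (w 0 * v 1 - w 1 * v 0) * hi - (w 0 * u 1 - w 1 * u 0) * hj

end

end H484SG
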