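import Pool.Agent.H484Z.SG.Basic

set_option autoImplicit false

open Matrix

namespace H484SG
open Z4

/-- The linear form with coefficient vector `h`. -/
noncomputable def fm (h : Fin 3 → ℂ) : Module.Dual ℂ (Fin 3 → ℂ) :=
  h 0 • LinearMap.proj 0 + h 1 • LinearMap.proj 1 + h 2 • LinearMap.proj 2

/-- The line with coefficient vector `h`. -/
noncomputable def Ln (h : Fin 3 → ℂ) : Submodule ℂ (Fin 3 → ℂ) := LinearMap.ker (fm h)

theorem mem_Ln {h x : Fin 3 → ℂ} : x ∈ Ln h ↔ h 0 * x 0 + h 1 * x 1 + h 2 * x 2 = 0 := by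
  simp [Ln, fm]

theorem finrank_Ln {h : Fin 3 → ℂ} (hh : h ≠ 0) : Module.finrank ℂ (Ln h) = 2 := by
  have hf : fm h ≠ 0 := by
    intro h0
    apply hh
    funext i
    have := congrArg (fun f : Module.Dual ℂ (Fin 3 → ℂ) => f (Pi.single i 1)) h0
    fin_cases i <;> simpa [fm] using this
  have := Module.Dual.finrank_ker_add_one_of_ne_zero hf
  rw [Module.finrank_fin_fun] at this
  unfold Ln
  omega

theorem cross_of_le {h k : Fin 3 → ℂ} (hle : Ln h ≤ Ln k) :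
    h 1 * k 2 - h 2 * k 1 = 0 ∧ h 2 * k 0 - h 0 * k 2 = 0 ∧ h 0 * k 1 - h 1 * k 0 = 0 := by
  have h0 : (![0, -h 2, h 1] : Fin 3 → ℂ) ∈ Ln h := by rw [mem_Ln]; simp; ring
  have h1 : (![h 2, 0, -h 0] : Fin 3 → ℂ) ∈ Ln h := by rw [mem_Ln]; simp; ring
  have h2 : (![-h 1, h 0, 0] : Fin 3 → ℂ) ∈ Ln h := by rw [mem_Ln]; simp; ring
  have k0 := mem_Ln.1 (hle h0)
  have k1 := mem_Ln.1 (hle h1)
  have k2 := mem_Ln.1 (hle h2)
  simp at k0 k1 k2
  exact ⟨by linear_combination k0, by linear_combination k1, by linear_combination k2⟩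

theorem det_of_common {u v w p : Fin 3 → ℂ} (hp : p ≠ 0) (hu : p ∈ Ln u) (hv : p ∈ Ln v)
    (hw : p ∈ Ln w) :
    (u 1 * v 2 - u 2 * v 1) * w 0 + (u 2 * v 0 - u 0 * v 2) * w 1
      + (u 0 * v 1 - u 1 * v 0) * w 2 = 0 := by
  rw [mem_Ln] at hu hv hw
  by_contra hne
  apply hp
  funext i
  apply (mul_eq_zero_iff_left hne).1
  fin_cases i
  · show _ * p 0 = 0
    linear_combination (u 1 * v 2 - u 2 * v 1) * hw + (v 1 * w 2 - v 2 * w 1) * hu
      + (w 1 * u 2 - w 2 * u 1) * hv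
  · show _ * p 1 = 0
    linear_combination (u 2 * v 0 - u 0 * v 2) * hw + (v 2 * w 0 - v 0 * w 2) * hu
      + (w 2 * u 0 - w 0 * u 2) * hv
  · show _ * p 2 = 0
    linear_combination (u 0 * v 1 - u 1 * v 0) * hw + (v 0 * w 1 - v 1 * w 0) * hu
      + (w 0 * u 1 - w 1 * u 0) * hv

/-- seven of the lines, no three of them concurrent -/
def arc : Fin 7 → Fin 22 := ![0, 1, 2, 3, 4, 7, 20]

theorem arc_nz : ∀ i j k : Fin 7, i ≠ j → i ≠ k → j ≠ k →
    nz (dt (arc i) (arc j) (arc k)) = true := by decide +kernel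

theorem exists_root : ∃ ζ : ℂ, ζ ^ 4 - ζ ^ 2 + 1 = 0 := by
  obtain ⟨z, hz⟩ := IsAlgClosed.exists_root
    (Polynomial.X ^ 4 - Polynomial.X ^ 2 + 1 : Polynomial ℂ) (by
      have : (Polynomial.X ^ 4 - Polynomial.X ^ 2 + 1 : Polynomial ℂ).degree = 4 := by
        compute_degree!
      rw [this]; norm_num)
  exact ⟨z, by simpa using hz⟩

section
variable {ζ : ℂ}

theorem Ln_inj (h : ζ ^ 4 - ζ ^ 2 + 1 = 0) : Function.Injective fun j => Ln (hv ζ j) := by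
  intro i j hij
  by_contra hne
  exact cross_ne h hne (cross_of_le (le_of_eq hij))

theorem no_three (h : ζ ^ 4 - ζ ^ 2 + 1 = 0) (P : Fin 3 → Fin 3 → ℂ) (hP : ∀ m, P m ≠ 0)
    (hc : ∀ j, ∃ m, P m ∈ Ln (hv ζ j)) : False := by
  choose f hf using hc
  obtain ⟨y, hy⟩ := Fintype.exists_lt_card_fiber_of_mul_lt_card (f := fun i => f (arc i))
    (n := 2) (by simp)
  obtain ⟨a, ha, b, hb, c, hc, hab, hac, hbc⟩ := Finset.two_lt_card.1 hy
  simp only [Finset.mem_filter, Finset.mem_univ, true_and] at ha hb hc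
  have := det_of_common (hP y) (ha ▸ hf (arc a)) (hb ▸ hf (arc b)) (hc ▸ hf (arc c))
  exact ev_ne_zero h (arc_nz a b c hab hac hbc) (by rw [ev_dt h, this])

end

/-- The set of axes of involutions of a subgroup of the projective linear group. -/
def Ax (K : Subgroup (GL (Fin 3) ℂ ⧸ Subgroup.center (GL (Fin 3) ℂ))) :
    Set (Submodule ℂ (Fin 3 → ℂ)) :=
  {ℓ : Submodule ℂ (Fin 3 → ℂ) | Module.finrank ℂ ℓ = 2 ∧
        ∃ g : GL (Fin 3) ℂ,
          (QuotientGroup.mk g : GL (Fin 3) ℂ ⧸ Subgroup.center (GL (Fin 3) ℂ)) ∈ K ∧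
          g ^ 2 ∈ Subgroup.center (GL (Fin 3) ℂ) ∧
          g ∉ Subgroup.center (GL (Fin 3) ℂ) ∧
          ∃ c : ℂ, ∀ x ∈ ℓ, (g : Matrix (Fin 3) (Fin 3) ℂ) *ᵥ x = c • x}

theorem Ax_conj {K : Subgroup (GL (Fin 3) ℂ ⧸ Subgroup.center (GL (Fin 3) ℂ))}
    {ℓ ℓ' : Submodule ℂ (Fin 3 → ℂ)} (hl : ℓ ∈ Ax K) (hr : Module.finrank ℂ ℓ' = 2)
    (g₀ : GL (Fin 3) ℂ)
    (hg : (QuotientGroup.mk g₀ : GL (Fin 3) ℂ ⧸ Subgroup.center (GL (Fin 3) ℂ)) ∈ K)
    (hm : ∀ x ∈ ℓ', (g₀ : Matrix (Fin 3) (Fin 3) ℂ) *ᵥ x ∈ ℓ) : ℓ' ∈ Ax K := by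
  obtain ⟨-, g, hgK, h2, hn, c, hc⟩ := hl
  refine ⟨hr, g₀⁻¹ * g * g₀, ?_, ?_, ?_, c, ?_⟩
  · rw [QuotientGroup.mk_mul, QuotientGroup.mk_mul, QuotientGroup.mk_inv]
    exact K.mul_mem (K.mul_mem (K.inv_mem hg) hgK) hg
  · have : (g₀⁻¹ * g * g₀) ^ 2 = g₀⁻¹ * g ^ 2 * g₀⁻¹⁻¹ := by simp only [pow_two]; group
    rw [this]
    exact (Subgroup.normal_of_characteristic _).conj_mem _ h2 _
  · intro h
    apply hn
    have : g = g₀ * (g₀⁻¹ * g * g₀) * g₀⁻¹ := by group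
    rw [this]
    exact (Subgroup.normal_of_characteristic _).conj_mem _ h _
  · intro x hx
    rw [Units.val_mul, Units.val_mul, ← Matrix.mulVec_mulVec, ← Matrix.mulVec_mulVec,
      hc _ (hm x hx), Matrix.mulVec_smul, Matrix.mulVec_mulVec, ← Units.val_mul]
    simp

theorem z2_cases : ∀ k : Fin 22, nz (V2 k) = true ∨ k = 0 ∨ k = 1 ∨ k = 16 := by decide +kernel
theorem z1_cases : ∀ k : Fin 22, nz (V1 k) = true ∨ k = 0 ∨ k = 2 ∨ k = 17 := by decide +kernel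

def bad (w : Z4) (k : Fin 22) : Bool :=
  nz (sub (V2 k) (V1 k)) || nz (sub (V0 k) (mul w (V2 k))) || nz (sub (mul w (V1 k)) (V0 k))

theorem bad_all : ∀ k : Fin 22, bad ⟨-1, 0, 0, 0⟩ k = true ∧ bad ⟨0, 1, 0, 0⟩ k = true ∧
    bad ⟨0, 0, -1, -1⟩ k = true ∧ bad ⟨1, 1, -1, -1⟩ k = true := by decide +kernel

theorem bad_use {ζ : ℂ} (h : ζ ^ 4 - ζ ^ 2 + 1 = 0) {w : Z4} {k : Fin 22} (hb : bad w k = true)
    {c t : ℂ} (hc : c ≠ 0) (ht : t = c * ev ζ w) (hle : Ln ![t, c, c] ≤ Ln (hv ζ k)) : False := by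
  obtain ⟨h0, h1, h2⟩ := cross_of_le hle
  simp only [Matrix.cons_val_zero, Matrix.cons_val_one, Matrix.cons_val_two, Matrix.head_cons,
    Matrix.tail_cons, hv0, hv1, hv2, Matrix.cons_val_fin_one] at h0 h1 h2
  simp only [bad, Bool.or_eq_true] at hb
  rcases hb with (hb | hb) | hb
  · apply ev_ne_zero h hb
    rw [ev_sub]; apply (mul_eq_zero_iff_left hc).1; linear_combination h0
  · apply ev_ne_zero h hb
    rw [ev_sub, ev_mul h]; apply (mul_eq_zero_iff_left hc).1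
    rw [ht] at h1; linear_combination h1
  · apply ev_ne_zero h hb
    rw [ev_sub, ev_mul h]; apply (mul_eq_zero_iff_left hc).1
    rw [ht] at h2; linear_combination h2

theorem not_Ax {ζ : ℂ} (h : ζ ^ 4 - ζ ^ 2 + 1 = 0)
    (K : Subgroup (GL (Fin 3) ℂ ⧸ Subgroup.center (GL (Fin 3) ℂ))) :
    Set.range (fun j => Ln (hv ζ j)) ≠ Ax K := by
  intro hA
  have hmem : ∀ j, Ln (hv ζ j) ∈ Ax K := fun j => hA ▸ ⟨j, rfl⟩
  obtain ⟨-, g, hgK, h2, hn, c, hc⟩ := hmem 0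
  have hv00 : hv ζ 0 = ![1, 0, 0] := by
    funext i; fin_cases i <;> simp [V0, V1, V2, VL, ev]
  have hv11 : hv ζ 1 = ![0, 1, 0] := by
    funext i; fin_cases i <;> simp [V0, V1, V2, VL, ev]
  have hv22 : hv ζ 2 = ![0, 0, 1] := by
    funext i; fin_cases i <;> simp [V0, V1, V2, VL, ev]
  have hv66 : hv ζ 6 = ![1, 1, 1] := by
    funext i; fin_cases i <;> simp [V0, V1, V2, VL, ev]
  have hv16 : hv ζ 16 = ![1 + ζ, ζ ^ 3, 0] := by
    funext i; fin_cases i <;> simp [V0, V1, V2, VL, ev]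
  have hv17 : hv ζ 17 = ![1 + ζ, 0, 1] := by
    funext i; fin_cases i <;> simp [V0, V1, V2, VL, ev]
  have e1 := hc ![0, 1, 0] (by rw [hv00, mem_Ln]; simp)
  have e2 := hc ![0, 0, 1] (by rw [hv00, mem_Ln]; simp)
  set G : Matrix (Fin 3) (Fin 3) ℂ := (g : Matrix (Fin 3) (Fin 3) ℂ) with hG
  have hGe : G = !![G 0 0, 0, 0; G 1 0, c, 0; G 2 0, 0, c] := by
    have a0 := congrFun e1 0
    have a1 := congrFun e1 1
    have a2 := congrFun e1 2
    have b0 := congrFun e2 0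
    have b1 := congrFun e2 1
    have b2 := congrFun e2 2
    simp [Matrix.mulVec, dotProduct, Fin.sum_univ_three] at a0 a1 a2 b0 b1 b2
    ext i j
    fin_cases i <;> fin_cases j <;> simp [a0, a1, a2, b0, b1, b2]
  generalize G 0 0 = a at hGe
  generalize G 1 0 = b at hGe
  generalize G 2 0 = d at hGe
  have hdet : G.det ≠ 0 := by
    rw [hG]; exact (Matrix.GeneralLinearGroup.det_ne_zero g)
  have hc0 : c ≠ 0 := by
    intro h0; apply hdet; rw [hGe, h0]; simp [Matrix.det_fin_three]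
  obtain ⟨s, hs⟩ := Matrix.GeneralLinearGroup.mem_center_iff_val_mem_range_scalar.1 h2
  rw [pow_two, Units.val_mul, ← hG, hGe] at hs
  have s00 := congrFun (congrFun hs 0) 0
  have s11 := congrFun (congrFun hs 1) 1
  have s10 := congrFun (congrFun hs 1) 0
  have s20 := congrFun (congrFun hs 2) 0
  simp [Matrix.mul_apply, Fin.sum_univ_three, Matrix.scalar_apply] at s00 s11 s10 s20
  have hac : a = -c := by
    by_contra hne
    have hne' : a + c ≠ 0 := fun h0 => hne (by linear_combination h0)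
    have ha : a = c := by
      have : (a - c) * (a + c) = 0 := by linear_combination s11 - s00
      rcases mul_eq_zero.1 this with h0 | h0
      · linear_combination h0
      · exact absurd h0 hne'
    have hb : b = 0 := (mul_eq_zero_iff_right hne').1 (by linear_combination -s10)
    have hd : d = 0 := (mul_eq_zero_iff_right hne').1 (by linear_combination -s20)
    apply hn
    refine Matrix.GeneralLinearGroup.mem_center_iff_val_mem_range_scalar.2 ⟨c, ?_⟩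
    rw [← hG, hGe, ha, hb, hd]
    ext i j
    fin_cases i <;> fin_cases j <;> simp [Matrix.scalar_apply]
  have key : ∀ (j : Fin 22) (u : Fin 3 → ℂ), u ≠ 0 →
      (∀ x ∈ Ln u, G *ᵥ x ∈ Ln (hv ζ j)) → ∃ k, Ln u ≤ Ln (hv ζ k) := by
    intro j u hu hx
    have := Ax_conj (hmem j) (finrank_Ln hu) g hgK hx
    rw [← hA] at this
    obtain ⟨k, hk⟩ := this
    exact ⟨k, le_of_eq hk.symm⟩
  have hb : b = 0 ∨ b = c * (1 - ζ ^ 2 - ζ ^ 3) := by
    obtain ⟨k, hk⟩ := key 1 ![b, c, 0] (fun h0 => hc0 (congrFun h0 1)) (by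
      intro x hx
      rw [mem_Ln] at hx
      rw [hv11, mem_Ln, hGe]
      simpa [Matrix.mulVec, dotProduct, Fin.sum_univ_three] using hx)
    obtain ⟨h0, -, h2⟩ := cross_of_le hk
    rcases z2_cases k with hk | rfl | rfl | rfl
    · exact absurd (by simpa [hc0] using h0) (ev_ne_zero h hk)
    · rw [hv00] at h2; simp [hc0] at h2
    · rw [hv11] at h2; left; simpa using h2
    · rw [hv16] at h2; right
      simp only [Matrix.cons_val_zero, Matrix.cons_val_one] at h2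
      linear_combination (-ζ ^ 3) * h2 + (b * (ζ ^ 2 + 1) - c) * h
  have hd : d = 0 ∨ d = c * (1 + ζ) := by
    obtain ⟨k, hk⟩ := key 2 ![d, 0, c] (fun h0 => hc0 (congrFun h0 2)) (by
      intro x hx
      rw [mem_Ln] at hx
      rw [hv22, mem_Ln, hGe]
      simpa [Matrix.mulVec, dotProduct, Fin.sum_univ_three] using hx)
    obtain ⟨h0, h1, -⟩ := cross_of_le hk
    rcases z1_cases k with hk | rfl | rfl | rfl
    · exact absurd (by simpa [hc0] using h0) (ev_ne_zero h hk)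
    · rw [hv00] at h1; simp [hc0] at h1
    · rw [hv22] at h1; left; simpa using h1
    · rw [hv17] at h1; right
      simp at h1
      linear_combination -h1
  obtain ⟨k, hk⟩ := key 6 ![a + b + d, c, c] (fun h0 => hc0 (congrFun h0 1)) (by
      intro x hx
      rw [mem_Ln] at hx
      rw [hv66, mem_Ln, hGe]
      simp [Matrix.mulVec, dotProduct, Fin.sum_univ_three] at hx ⊢
      linear_combination hx)
  obtain ⟨b1, b2, b3, b4⟩ := bad_all k
  rcases hb with hb | hb <;> rcases hd with hd | hd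
  · exact bad_use h b1 hc0 (by rw [hac, hb, hd]; simp [ev]) hk
  · exact bad_use h b2 hc0 (by rw [hac, hb, hd]; simp [ev]; ring) hk
  · exact bad_use h b3 hc0 (by rw [hac, hb, hd]; simp [ev]; ring) hk
  · exact bad_use h b4 hc0 (by rw [hac, hb, hd]; simp [ev]; ring) hk

theorem not_fermat {ζ : ℂ} (h : ζ ^ 4 - ζ ^ 2 + 1 = 0) (r : ℕ)
    (g : (Fin 3 → ℂ) ≃ₗ[ℂ] (Fin 3 → ℂ)) :
    Set.range (fun j => Ln (hv ζ j)) ≠ Submodule.map g.toLinearMap ''
        {ℓ : Submodule ℂ (Fin 3 → ℂ) | Module.finrank ℂ ℓ = 2 ∧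
          ∃ ζ : ℂ, ζ ^ r = 1 ∧
            ((∀ x ∈ ℓ, x 0 = ζ * x 1) ∨ (∀ x ∈ ℓ, x 0 = ζ * x 2) ∨
              (∀ x ∈ ℓ, x 1 = ζ * x 2))} := by
  intro hA
  apply no_three h (fun m => g (Pi.single m 1))
  · intro m h0
    have := g.map_eq_zero_iff.1 h0
    simpa using congrFun this m
  · intro j
    have : Ln (hv ζ j) ∈ Set.range (fun j => Ln (hv ζ j)) := ⟨j, rfl⟩
    rw [hA] at this
    obtain ⟨ℓ, ⟨hr, z, -, hz⟩, hl⟩ := this
    have aux : ∀ u : Fin 3 → ℂ, u ≠ 0 → ℓ ≤ Ln u → ∀ m, u m = 0 →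
        g (Pi.single m 1) ∈ Ln (hv ζ j) := by
      intro u hu hle m hm
      have he : ℓ = Ln u := Submodule.eq_of_le_of_finrank_eq hle (by rw [hr, finrank_Ln hu])
      rw [← hl]
      refine Submodule.mem_map_of_mem (f := g.toLinearMap) ?_
      rw [he, mem_Ln]
      fin_cases m <;> simpa using hm
    rcases hz with hz | hz | hz
    · refine ⟨2, aux ![1, -z, 0] (fun h0 => by simpa using congrFun h0 0) ?_ 2 rfl⟩
      intro x hx; rw [mem_Ln]; simp [hz x hx]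
    · refine ⟨1, aux ![1, 0, -z] (fun h0 => by simpa using congrFun h0 0) ?_ 1 rfl⟩
      intro x hx; rw [mem_Ln]; simp [hz x hx]
    · refine ⟨0, aux ![0, 1, -z] (fun h0 => by simpa using congrFun h0 1) ?_ 0 rfl⟩
      intro x hx; rw [mem_Ln]; simp [hz x hx]

theorem not_pencil {ζ : ℂ} (h : ζ ^ 4 - ζ ^ 2 + 1 = 0) :
    ¬ (∃ p : Submodule ℂ (Fin 3 → ℂ), Module.finrank ℂ p = 1 ∧
      ∀ ℓ ∈ Set.range (fun j => Ln (hv ζ j)), p ≤ ℓ) := by
  rintro ⟨p, hp, hl⟩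
  have hne : p ≠ ⊥ := by rintro rfl; simp at hp
  obtain ⟨x, hx, hx0⟩ := Submodule.exists_mem_ne_zero_of_ne_bot hne
  exact no_three h (fun _ => x) (fun _ => hx0) fun j => ⟨0, hl _ ⟨j, rfl⟩ hx⟩

theorem no_double {ζ : ℂ} (h : ζ ^ 4 - ζ ^ 2 + 1 = 0) :
    ∀ ℓ₁ ∈ Set.range (fun j => Ln (hv ζ j)), ∀ ℓ₂ ∈ Set.range (fun j => Ln (hv ζ j)), ℓ₁ ≠ ℓ₂ →
      ∀ p : Submodule ℂ (Fin 3 → ℂ), Module.finrank ℂ p = 1 → p ≤ ℓ₁ → p ≤ ℓ₂ →
          ∃ ℓ₃ ∈ Set.range (fun j => Ln (hv ζ j)), ℓ₃ ≠ ℓ₁ ∧ ℓ₃ ≠ ℓ₂ ∧ p ≤ ℓ₃ := by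
  rintro _ ⟨i, rfl⟩ _ ⟨j, rfl⟩ hne p - h1 h2
  have hij : i ≠ j := fun e => hne (by rw [e])
  refine ⟨_, ⟨third i j, rfl⟩, fun e => (third_spec i j hij).1 (Ln_inj h e),
    fun e => (third_spec i j hij).2.1 (Ln_inj h e), fun x hx => ?_⟩
  exact mem_Ln.2 (on_third h hij x (mem_Ln.1 (h1 hx)) (mem_Ln.1 (h2 hx)))

end H484SG
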